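import Pool.Agent.N867.AS.X4

/-!
# The leading coefficient at `s = 1` for Jacobians of curves `y_j^p - y_j = f_j(x, t)` over the
curves `z_i^p - z_i = h_i(t)`
-/

set_option autoImplicit false

namespace Pool.Agent.Results.MP_60d5ce_nt.AbelianCovers

open Polynomial

/-- All monomials `x^m t^n` of `f ∈ k[t][x]` (outer variable `x`, inner variable `t`) satisfy
`b m + a n ≤ g a b`, and those with equality make up `∑_{i ≤ g} Φ_i x^{a i} t^{b (g - i)}`, where
`Φ_i` is the coefficient of `X^i` in `Φ`. -/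
structure Leads {k : Type} [Field k] (a b g : ℕ) (Φ : k[X]) (f : k[X][X]) : Prop where
  wt : ∀ m n, (f.coeff m).coeff n ≠ 0 → b * m + a * n ≤ g * (a * b)
  top : ∀ i ≤ g, (f.coeff (a * i)).coeff (b * (g - i)) = Φ.coeff i

/-- The pairs `u = (u_1, u_2)` of positive integers with `b u_1 + a u_2 = w`. -/
abbrev Lattice (a b w : ℕ) : Type :=
  {u : Fin (w + 1) × Fin (w + 1) //
    0 < (u.1 : ℕ) ∧ 0 < (u.2 : ℕ) ∧ b * (u.1 : ℕ) + a * (u.2 : ℕ) = w}

/-- The number `∑_{w < gab} #(Lattice a b w) (1 - w/(gab))`. -/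
noncomputable def hodge (a b g : ℕ) : ℚ :=
  ∑ w ∈ Finset.range (g * (a * b)),
    (Fintype.card (Lattice a b w) : ℚ) * (1 - (w : ℚ) / ((g * (a * b) : ℕ) : ℚ))

/-- The matrix with entries the coefficients of `X^{(p v_1 - u_1)/a}` in `Φ^n`, for `u` and `v` in
`Lattice a b w`. -/
noncomputable def hasseWitt {k : Type} [Field k] (p a b w n : ℕ) (Φ : k[X]) :
    Matrix (Lattice a b w) (Lattice a b w) k :=
  Matrix.of fun u v => (Φ ^ n).coeff ((p * (v.1.1 : ℕ) - (u.1.1 : ℕ)) / a)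

/-- For every `w` with `0 < w < g a b` the matrix `hasseWitt` of `Φ^{(p-1)w/(gab)}` is
invertible. -/
def Ordinary {k : Type} [Field k] (p a b g : ℕ) (Φ : k[X]) : Prop :=
  ∀ w, 0 < w → w < g * (a * b) → (hasseWitt p a b w ((p - 1) * w / (g * (a * b))) Φ).det ≠ 0

/-- `Φ = X^g - c` with `c ≠ 0`. -/
def Diagonal {k : Type} [Field k] (g : ℕ) (Φ : k[X]) : Prop :=
  ∃ c : k, c ≠ 0 ∧ Φ = X ^ g - C c

/-- The value `h(t)` at an element `t` of an algebraic closure of `k`. -/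
noncomputable def baseValue {k : Type} [Field k] (h : k[X]) (t : AlgebraicClosure k) :
    AlgebraicClosure k :=
  h.eval₂ (algebraMap k (AlgebraicClosure k)) t

/-- The value `f(x, t)` at a point with coordinates in an algebraic closure of `k`. -/
noncomputable def value {k : Type} [Field k] (f : k[X][X]) (t x : AlgebraicClosure k) :
    AlgebraicClosure k :=
  f.eval₂ (eval₂RingHom (algebraMap k (AlgebraicClosure k)) t) x

/-- The number of `(t, z_1, …, z_r)` with coordinates in `F_Q = {z : z^Q = z}` such that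
`z_i^p - z_i = h_i(t)` for all `i`. -/
noncomputable def basePoints {k : Type} [Field k] (p : ℕ) {r : ℕ} (h : Fin r → k[X]) (Q : ℕ) : ℕ :=
  Nat.card {v : AlgebraicClosure k × (Fin r → AlgebraicClosure k) //
    v.1 ^ Q = v.1 ∧ (∀ i, v.2 i ^ Q = v.2 i) ∧ ∀ i, v.2 i ^ p - v.2 i = baseValue (h i) v.1}

/-- The number of `(t, x, y_1, …, y_m, z_1, …, z_r)` with coordinates in `F_Q = {z : z^Q = z}`
such that `y_j^p - y_j = f_j(x, t)` for all `j` and `z_i^p - z_i = h_i(t)` for all `i`. -/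
noncomputable def points {k : Type} [Field k] (p : ℕ) {m r : ℕ} (f : Fin m → k[X][X])
    (h : Fin r → k[X]) (Q : ℕ) : ℕ :=
  Nat.card {v : AlgebraicClosure k × AlgebraicClosure k × (Fin m → AlgebraicClosure k) ×
      (Fin r → AlgebraicClosure k) //
    v.1 ^ Q = v.1 ∧ v.2.1 ^ Q = v.2.1 ∧ (∀ j, v.2.2.1 j ^ Q = v.2.2.1 j) ∧
    (∀ i, v.2.2.2 i ^ Q = v.2.2.2 i) ∧
    (∀ j, v.2.2.1 j ^ p - v.2.2.1 j = value (f j) v.1 v.2.1) ∧
    (∀ i, v.2.2.2 i ^ p - v.2.2.2 i = baseValue (h i) v.1)}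

/-- The power series `∑_{n ≥ 1} (q^n S_n - N_n) T^n`, where `q = #k`,
`S_n = basePoints p h (q^n)` and `N_n = points p f h (q^n)`. -/
noncomputable def traces {k : Type} [Field k] [Fintype k] (p : ℕ) {m r : ℕ}
    (f : Fin m → k[X][X]) (h : Fin r → k[X]) : PowerSeries ℚ :=
  PowerSeries.mk fun n => if n = 0 then 0 else
    ((Fintype.card k : ℚ) ^ n * (basePoints p h (Fintype.card k ^ n) : ℚ) -
      (points p f h (Fintype.card k ^ n) : ℚ))

/-- `L(T) = exp (∑_{n ≥ 1} (q^n S_n - N_n) T^n / n)`: that is, `L(0) = 1` and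
`T L' = L ∑_{n ≥ 1} (q^n S_n - N_n) T^n`. -/
def IsLFunction {k : Type} [Field k] [Fintype k] (p : ℕ) {m r : ℕ} (f : Fin m → k[X][X])
    (h : Fin r → k[X]) (L : ℚ[X]) : Prop :=
  L.coeff 0 = 1 ∧
    PowerSeries.X * PowerSeries.derivative ℚ (L : PowerSeries ℚ) =
      (L : PowerSeries ℚ) * traces p f h

/-- The pairs `(c, d)` of vectors `c ∈ {0, …, p - 1}^m`, `d ∈ {0, …, p - 1}^r` with `c ≠ 0`. -/
abbrev Index (p m r : ℕ) : Type :=
  {v : (Fin m → Fin p) × (Fin r → Fin p) // ∃ j, (v.1 j : ℕ) ≠ 0}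

/-- `∑ c_j f_j(x, t) + ∑ d_i h_i(t)`. -/
noncomputable def comb {k : Type} [Field k] {p m r : ℕ} (f : Fin m → k[X][X]) (h : Fin r → k[X])
    (v : Index p m r) : k[X][X] :=
  ∑ j, ((v.1.1 j : ℕ) : k[X][X]) * f j + ∑ i, ((v.1.2 i : ℕ) : k[X][X]) * C (h i)

theorem Leads.lead {k : Type} [Field k] {a b g : ℕ} {Φ : k[X]} {f : k[X][X]}
    (h : Leads a b g Φ f) (hΦ : Φ.natDegree = g) : Pool.Agent.N867.AS.Final2.Lead a b g Φ f := by
  refine ⟨h.wt, ?_⟩
  ext r
  rcases Nat.lt_or_ge g r with hr | hr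
  · have h1 : Φ.coeff r = 0 := coeff_eq_zero_of_natDegree_lt (by rw [hΦ]; exact hr)
    rw [h1, Pool.Agent.N867.AS.TV.topPoly, finsetSum_coeff]
    refine Finset.sum_eq_zero fun i hi => ?_
    rw [coeff_C_mul, coeff_X_pow, if_neg, mul_zero]
    have := Finset.mem_range.1 hi
    omega
  · rw [Pool.Agent.N867.AS.RG.top_coeff a b g f hr, h.top r hr]

/-- Let every combination `v = ∑ c_j f_j(x, t) + ∑ d_i h_i(t)` with `c ≠ 0` have leading form
`u_v P_v`, where `u_v ∈ k^*` and `P_v = H_{v,1} ⋯ H_{v,e_v}` is ordinary or of the form `X^g - η`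
and the `H_{v,i}` are distinct, monic and irreducible over `k`. Write the `L`-function of the
Jacobian of the curve `y_j^p - y_j = f_j(x, t)` over the function field of
`z_i^p - z_i = h_i(t)` as `L = (1 - q T)^ρ M` with `M(1/q) ≠ 0`, and put `q = p^s`,
`R = ∑_v (e_v - 1)`, `N = s ∑_v hodge(a_v, b_v, g_v)`. Then `ρ ≤ R` and `v_p(M(1/q)) ≥ -N`, with
equality if and only if `ρ = R`. -/
theorem result (p : ℕ) (hp : p.Prime) (k : Type) [Field k] [Fintype k] [CharP k p] (s : ℕ)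
    (hs : Fintype.card k = p ^ s) (m r : ℕ) (f : Fin m → k[X][X]) (h : Fin r → k[X])
    (a b g e : Index p m r → ℕ) (hab : ∀ v, (a v).Coprime (b v)) (hga : ∀ v, g v * a v ∣ p - 1)
    (hgb : ∀ v, g v * b v ∣ p - 1) (u : Index p m r → k) (hu : ∀ v, u v ≠ 0)
    (H : ∀ v, Fin (e v) → k[X]) (hirr : ∀ v i, Irreducible (H v i))
    (hmon : ∀ v i, (H v i).Monic) (hinj : ∀ v, Function.Injective (H v))
    (hdeg : ∀ v, ∑ i, (H v i).natDegree = g v)
    (hord : ∀ v, Ordinary p (a v) (b v) (g v) (∏ i, H v i) ∨ Diagonal (g v) (∏ i, H v i))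
    (hf : ∀ v, Leads (a v) (b v) (g v) (C (u v) * ∏ i, H v i) (comb f h v))
    (L : ℚ[X]) (hL : IsLFunction p f h L) (ρ : ℕ) (M : ℚ[X])
    (hLM : L = (1 - C (Fintype.card k : ℚ) * X) ^ ρ * M)
    (hM : M.eval (1 / (Fintype.card k : ℚ)) ≠ 0) :
    ρ ≤ ∑ v, (e v - 1) ∧
      -((s : ℚ) * ∑ v, hodge (a v) (b v) (g v)) ≤
        (padicValRat p (M.eval (1 / (Fintype.card k : ℚ))) : ℚ) ∧
      ((padicValRat p (M.eval (1 / (Fintype.card k : ℚ))) : ℚ) =
        -((s : ℚ) * ∑ v, hodge (a v) (b v) (g v)) ↔ ρ = ∑ v, (e v - 1)) := by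
  have hp1 : p - 1 ≠ 0 := by
    have := hp.two_le
    omega
  have hga0 : ∀ v, g v * a v ≠ 0 := fun v h => hp1 (by
    have := hga v
    rwa [h, zero_dvd_iff] at this)
  have hgb0 : ∀ v, g v * b v ≠ 0 := fun v h => hp1 (by
    have := hgb v
    rwa [h, zero_dvd_iff] at this)
  have hg0 := fun v => left_ne_zero_of_mul (hga0 v)
  have ha := fun v => right_ne_zero_of_mul (hga0 v)
  have hb := fun v => right_ne_zero_of_mul (hgb0 v)
  have hΦ : ∀ v, (∏ i, H v i).natDegree = g v := by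
    intro v
    rw [natDegree_prod_of_monic _ _ fun i _ => hmon v i, hdeg]
  have hord' : ∀ v, Pool.Agent.N867.AS.LP.OrdP p (a v) (b v) (g v) (∏ i, H v i) := by
    intro v
    rcases hord v with h | ⟨c, hc, h⟩
    · exact h
    · rw [h]
      exact Pool.Agent.N867.AS.LP.ord_diag hp (ha v) (hb v) (hab v) (hg0 v)
        (Pool.Agent.N867.AS.TV.dvd_M (hab v) (hg0 v) (hga v) (hgb v)) hc
  exact Pool.Agent.N867.AS.Tow.main2 p hp k s hs m r f h a b g e hab hga hgb u hu H hirr hmon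
    hinj hΦ hord' (fun v => (hf v).lead (by rw [natDegree_C_mul (hu v), hΦ])) L hL.1 hL.2 ρ M hLM
    hM

end Pool.Agent.Results.MP_60d5ce_nt.AbelianCovers
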