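import Pool.Agent.N876.KM.Fin

/-!
The superelliptic Jacobians `y ^ N = ∏ B_l(t) ^ (b_l) ∏ (x - f_i(t)) ^ (a_i)` with small exponents over all
the Galois extensions of `p`-power degree of `k(t)`, with arbitrary ramification: a bound of the type of
Kida's formula for the number of the zeros of the `L`-function at `s = 1`, also over all the constant
extensions.
-/

set_option autoImplicit false

open Polynomial

namespace Pool.Agent.Results.MP_60d5ce_nt.AllPExtensions

section generic

/-- The closed points of the affine line over the field `F`: monic irreducible polynomials. -/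
abbrev ClosedPt (F : Type) [Field F] : Type := {P : F[X] // P.Monic ∧ Irreducible P}

variable {F : Type} [Field F]

/-- The degree of a closed point of the affine line over `F`. -/
noncomputable def ptDegree (P : ClosedPt F) : ℕ := P.1.natDegree

/-- The polynomial `c ∏ (x - b_i) ^ (a_i)` over `F`. -/
noncomputable def fibre {n : ℕ} (c : F) (b : Fin n → F) (a : Fin n → ℕ) : F[X] :=
  C c * ∏ i, (X - C (b i)) ^ a i

/-- The norm to `k` of the value of the polynomial `g` over `F` at the closed point `Q` of the affine
line over the extension `F` of `k`. -/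
noncomputable def normValue {k : Type} [Field k] [Algebra k F] (g : F[X]) (Q : ClosedPt F) : k :=
  Algebra.norm k (AdjoinRoot.mk Q.1 g)

/-- The Euler product: its coefficient of index `n` is that of the product of the factors of degree
at most `n`. -/
noncomputable def eulerProduct {ι : Type} (d : ι → ℕ) (f : ι → PowerSeries ℂ) : PowerSeries ℂ :=
  PowerSeries.mk fun n => PowerSeries.coeff n (∏ᶠ (i : ι) (_ : d i ≤ n), f i)

end generic

section points

variable {k : Type} [Field k] {O : Type} [CommRing O] [Algebra k[X] O]

/-- The residue field of a closed point of `Spec O`, for an algebra `O` over `k[t]`. -/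
def Res (𝔪 : MaximalSpectrum O) : Type := O ⧸ 𝔪.asIdeal

attribute [local instance] MaximalSpectrum.isMaximal in
noncomputable instance resField (𝔪 : MaximalSpectrum O) : Field (Res 𝔪) :=
  Ideal.Quotient.field 𝔪.asIdeal

/-- The value at `𝔪` of a polynomial in `t`. -/
noncomputable def value (𝔪 : MaximalSpectrum O) : k[X] →+* Res 𝔪 :=
  (Ideal.Quotient.mk 𝔪.asIdeal).comp (algebraMap k[X] O)

noncomputable instance resAlgebra (𝔪 : MaximalSpectrum O) : Algebra k (Res 𝔪) :=
  ((value 𝔪).comp C).toAlgebra

variable (k) in
/-- The degree over `k` of a closed point of `Spec O`. -/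
noncomputable def placeDegree (𝔪 : MaximalSpectrum O) : ℕ := Module.finrank k (Res 𝔪)

/-- The closed points of the product of `Spec O` and the `x`-line: a closed point of `Spec O` and a
closed point of the `x`-line over its residue field. -/
structure SurfacePt (O : Type) [CommRing O] : Type where
  place : MaximalSpectrum O
  point : ClosedPt (Res place)

variable (k) in
/-- The degree of a closed point over `k`. -/
noncomputable def SurfacePt.deg (z : SurfacePt O) : ℕ :=
  placeDegree k z.place * ptDegree z.point

/-- A finite group `G`, a `p`-group, acts on the ring `O ⊇ k[t]` faithfully and with the ring of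
invariants `k[t]`, so that `Spec O` is a Galois covering of the line with the group `G`. For the closed
points `𝔪` of `Spec O` above the closed point `𝔭` of the line the inertia group has `e(𝔭)` elements, and
`e(𝔭) = 1` if `𝔭` is not in the finite set `S` and not a zero of `B`. -/
structure IsPCovering (p : ℕ) (B : k[X]) (S : Finset (MaximalSpectrum k[X]))
    (e : MaximalSpectrum k[X] → ℕ) (G O : Type) [Group G] [Finite G] [CommRing O]
    [Algebra k[X] O] [MulSemiringAction G O] : Prop where
  galois : IsGaloisGroup G k[X] O
  injective : Function.Injective (algebraMap k[X] O)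
  pGroup : ∀ σ : G, ∃ n : ℕ, σ ^ p ^ n = 1
  index : ∀ (𝔪 : MaximalSpectrum O) (𝔭 : MaximalSpectrum k[X]),
    𝔪.asIdeal.comap (algebraMap k[X] O) = 𝔭.asIdeal → Nat.card (𝔪.asIdeal.inertia G) = e 𝔭
  unramified : ∀ 𝔭 : MaximalSpectrum k[X], 𝔭 ∉ S → B ∉ 𝔭.asIdeal → e 𝔭 = 1

end points

section defs

variable {k : Type} [Field k]

variable (k) in
/-- The data of the curve `y ^ N = ∏ B_l(t) ^ (b_l) ∏ (x - f_i(t)) ^ (a_i)` over `k(t)`, with `m`
polynomials `B_l` and `r + 1` polynomials `f_i`. -/
structure Curve (m r : ℕ) : Type where
  coef : Fin m → k[X]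
  coefExp : Fin m → ℕ
  root : Fin (r + 1) → k[X]
  rootExp : Fin (r + 1) → ℕ

variable {m r : ℕ} (A : Curve k m r)

/-- The product `B(t)` of the `B_l(t) ^ (b_l)`. -/
noncomputable def Curve.B : k[X] := ∏ l, A.coef l ^ A.coefExp l

/-- The exponents are small: the polynomials `f_i` have degree at most `D ≥ 1`, no `b_l` and no `a_i` is
divisible by `N`, `j` is prime to `N`, and, if `b_l'` and `a_i'` are the residues of `j b_l` and `j a_i`
modulo `N`, then the sum of the `b_l' deg B_l` and of the `D a_i'` is less than `N`. Moreover, the sum of
the `a_i' (q - 1) / N` is less than `p`; if `q = p` this follows. -/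
structure Curve.Small (p q N D j : ℕ) : Prop where
  coprime : j.Coprime N
  coef_exp : ∀ l, ¬ N ∣ A.coefExp l
  root_exp : ∀ i, ¬ N ∣ A.rootExp i
  deg_pos : 0 < D
  root_deg : ∀ i, (A.root i).natDegree ≤ D
  small : ∑ l, (j * A.coefExp l % N) * (A.coef l).natDegree + D * ∑ i, (j * A.rootExp i % N) < N
  carry : (∑ i, (j * A.rootExp i % N)) * ((q - 1) / N) < p

/-- The polynomial `B ∏ (x - f_i) ^ (a_i)` at a closed point of a covering of the line. -/
noncomputable def Curve.at {O : Type} [CommRing O] [Algebra k[X] O] (𝔪 : MaximalSpectrum O) :
    (Res 𝔪)[X] :=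
  fibre (value 𝔪 A.B) (fun i => value 𝔪 (A.root i)) A.rootExp

/-- The `L`-function in the variable `T = (#k) ^ (-s)` of the `χ`-part of the Jacobian over the function
field of `Spec O`: the product over the closed points `z` of `Spec O × 𝔸¹` of the factors
`1 - χ(N z) T ^ (deg z)`, where `N z` is the norm to `k` of the value of `B(t) ∏ (x - f_i(t)) ^ (a_i)` at
`z`, and `χ(0) = 0`. -/
noncomputable def Curve.Lfun (O : Type) [CommRing O] [Algebra k[X] O] (χ : MulChar k ℂ) :
    PowerSeries ℂ :=
  eulerProduct (fun z : SurfacePt O => z.deg k)
    (fun z => 1 - PowerSeries.C (χ (normValue (A.at z.place) z.point)) * PowerSeries.X ^ z.deg k)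

/-- The product over the closed points `Q` of the `x`-line over the residue field of the closed point `𝔭`
of the `t`-line of the factors `1 - χ(N Q) T ^ (deg Q)`, where `N Q` is the norm to `k` of the value of
`B ∏ (x - f_i) ^ (a_i)` at `Q`. -/
noncomputable def Curve.fibreProduct (𝔭 : MaximalSpectrum k[X]) (χ : MulChar k ℂ) : PowerSeries ℂ :=
  eulerProduct (fun Q : ClosedPt (Res 𝔭) => ptDegree Q)
    (fun Q => 1 - PowerSeries.C (χ (normValue (A.at 𝔭) Q)) * PowerSeries.X ^ ptDegree Q)

/-- The point `𝔭` is not anomalous: the product `P(T)` of the inverses of these functions for all the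
characters `χ` of exact order `N` is an integral polynomial, and `p` does not divide `P(1)`. Here `P(T)` is
the numerator of the zeta function of the part of the fibre of these characters, so `P(1)` is the
number of the points over the residue field of the abelian variety. -/
def Curve.NonAnomalous (p N : ℕ) (𝔭 : MaximalSpectrum k[X]) : Prop :=
  ∃ P : ℤ[X], ¬ (p : ℤ) ∣ P.eval 1 ∧
    (∏ᶠ (χ : MulChar k ℂ) (_ : orderOf χ = N), A.fibreProduct 𝔭 χ) *
      ((P.map (Int.castRingHom ℂ) : ℂ[X]) : PowerSeries ℂ) = 1

/-- The number of the different values of the `f_i` at `𝔭`, minus one: the degree of the function of the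
fibre. -/
noncomputable def Curve.fibreDegree (𝔭 : MaximalSpectrum k[X]) : ℕ :=
  (Set.range fun i => value 𝔭 (A.root i)).ncard - 1

/-- The power series `L` in `T` is the product of a polynomial and of the factors `1 - Q ζ T` for the
members `ζ` of the multiset `M`: it has zeros at the points `1 / (Q ζ)`, with multiplicity. -/
def Vanishes (Q : ℕ) (M : Multiset ℂ) (L : PowerSeries ℂ) : Prop :=
  ∃ H : ℂ[X], L = (((M.map fun ζ => 1 - C ((Q : ℂ) * ζ) * X).prod * H : ℂ[X]) : PowerSeries ℂ)

open Classical in
/-- The sum over the ramified points `𝔭` in `S` which are not zeros of `B` of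
`(#G - #G / e(𝔭)) deg(𝔭) n(𝔭)`, where `n(𝔭)` is the degree of the function of the fibre. -/
noncomputable def Curve.geometricBound (S : Finset (MaximalSpectrum k[X]))
    (e : MaximalSpectrum k[X] → ℕ) (g : ℕ) : ℕ :=
  ∑ 𝔭 ∈ S, (if A.B ∈ 𝔭.asIdeal then 0 else (g - g / e 𝔭) * (placeDegree k 𝔭 * A.fibreDegree 𝔭))

open Classical in
/-- The sum over the anomalous points `𝔭` in `S` which are not zeros of `B` of
`(#G - #G / e(𝔭)) d(𝔭) n(𝔭)`, where `d(𝔭)` is the greatest power of `p` dividing the degree of `𝔭`. -/
noncomputable def Curve.arithmeticBound (p N : ℕ) (S : Finset (MaximalSpectrum k[X]))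
    (e : MaximalSpectrum k[X] → ℕ) (g : ℕ) : ℕ :=
  ∑ 𝔭 ∈ S, (if A.B ∈ 𝔭.asIdeal ∨ A.NonAnomalous p N 𝔭 then 0 else
    (g - g / e 𝔭) * (p ^ padicValNat p (placeDegree k 𝔭) * A.fibreDegree 𝔭))

theorem Lfun_eq (O : Type) [CommRing O] [Algebra k[X] O] (χ : MulChar k ℂ) :
    A.Lfun O χ = Pool.Agent.Y709.Lay.LO O χ (∏ l, A.coef l ^ A.coefExp l) A.root A.rootExp := by
  unfold Curve.Lfun Pool.Agent.Y709.Lay.LO eulerProduct Pool.Agent.W343.BSD.eulerProd
  ext n
  rw [PowerSeries.coeff_mk, PowerSeries.coeff_mk]
  congr 1
  let E : (Σ 𝔪 : MaximalSpectrum O, Pool.Agent.W313.Hyp.MI (Pool.Agent.Y709.Lay.RO k 𝔪)) ≃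
      SurfacePt O :=
    { toFun := fun z => ⟨z.1, z.2⟩
      invFun := fun z => ⟨z.place, z.point⟩
      left_inv := fun _ => rfl
      right_inv := fun _ => rfl }
  exact (finprod_comp_equiv E
    (f := fun z : SurfacePt O => ∏ᶠ (_ : z.deg k ≤ n),
      (1 - PowerSeries.C (χ (normValue (A.at z.place) z.point)) * PowerSeries.X ^ z.deg k :
        PowerSeries ℂ))).symm

theorem nonAnomalous_eq (p N : ℕ) (𝔭 : MaximalSpectrum k[X]) :
    A.NonAnomalous p N 𝔭 =
      Pool.Agent.N876.KM.NonAn k p N (∏ l, A.coef l ^ A.coefExp l) A.root A.rootExp 𝔭 := rfl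

end defs

/-- **The conjecture of Birch and Swinnerton-Dyer for superelliptic Jacobians with small exponents over
all the Galois extensions of `k(t)` of `p`-power degree.**

Let `q` be a power of the prime number `p`, let `k` be a finite extension of the field with `q` elements,
and `N` a divisor of `q - 1`. Let `f_0, …, f_r`, `r ≥ 1`, be polynomials in `k[t]` of degree at most `D`,
and `B = ∏ B_l ^ (b_l)` in `k[t]`. Let `A` be the new part of the Jacobian of the curve
`y ^ N = B(t) ∏ (x - f_i(t)) ^ (a_i)` over `k(t)`: the part of the characters of exact order `N` of the group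
of roots of unity; if `N` is a prime number this is the whole Jacobian. Suppose that for some `j`
prime to `N` the residues `b_l'` and `a_i'` of `j b_l` and `j a_i` modulo `N` satisfy
`∑ b_l' deg B_l + D ∑ a_i' < N` (and `∑ a_i' < p N / (q - 1)`, which follows if `q = p`). We can assume
that `B` or some `f_i - f_j` is not constant, as otherwise `A` is constant and the conjecture is known.

Let `L / k(t)` be any Galois extension whose degree is a power of `p`, and let `O` be the integral closure of
`k[t]` in `L` (the field of constants `k` can be replaced by a finite extension in all that follows). The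
exponents modulo `N` of all the local monodromies of the `χ`-part of the first cohomology of the fibres, at
`∞`, at the zeros of `B` and at the intersections of the sections `f_i`, are nonzero sums of the `b_l'` and
`a_i'` with multiplicities, of a value below `N`, times a power of `p`; hence there are no invariants except
the cohomology of the fibre, and the `L`-function of the `χ`-part of `A` over `L` is exactly `Curve.Lfun`, and
`L(A / L, s)` is the product of these functions, which are polynomials in `T = (#k) ^ (-s)`, over all `χ` of
order `N`. There is no condition on the positions of the `f_i`.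

The theorem bounds the number of the zeros `T = 1 / (#k ζ)` with roots of unity `ζ`, with multiplicity. The
zeros with `ζ ^ n = 1` are those which give the order of vanishing at `s = 1` over the constant extension
of degree `n`. Firstly, the number of all these zeros, hence the order at `s = 1` over all the constant
extensions of `L`, is at most
`∑ (#G - #G / e(𝔭)) deg(𝔭) n(𝔭)` over the ramified points `𝔭` of the line which are not zeros of `B` (the
ramification at `∞` and at the zeros of `B` is arbitrary), where `n(𝔭) ≤ r`. So it is bounded in terms of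
the degree and the tame conductor only, whereas the wild conductors and the genera of these `L`, and
the degrees of the `L`-functions, are unbounded. Secondly, the number of the zeros for which the order of
`ζ` is a power of `p`, hence the order at `s = 1` over all the layers of the constant `ℤ_p`-extension of `L`,
is at most the sum of `(#G - #G / e(𝔭)) n(𝔭)` over the places `𝔭` of the field `k_∞(t)`, `k_∞` the
`ℤ_p`-extension of `k`, above the anomalous ramified points. This is of the form of
Kida's formula.

In particular, if `L` is unramified outside `∞`, the zeros of `B`, and points `𝔭` which are not anomalous,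
that is, the reduction of `A` at `𝔭` has no point of order `p` over the residue field, then
`L(A / L, 1) ≠ 0`, and so `A(L)` is finite, the Tate-Shafarevich group of `A` over `L` is finite and the formula
of Birch and Swinnerton-Dyer holds (Tate, Milne, Kato-Trihan), and the same holds over all the layers
of the constant `ℤ_p`-extension of `L`. This holds for all the finite layers `L` of the maximal pro-`p`
extension of `k(t)` which is unramified outside of these points; its Galois group is a free pro-`p` group
of infinite rank, so that every finite `p`-group is the group of infinitely many such `L` of unbounded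
genus. If `L` is unramified outside of `∞` and the zeros of `B`, then this holds over all constant extensions
of `L`. -/
theorem result (k : Type) [Field k] [Finite k] (p : ℕ) [Fact p.Prime] [CharP k p] (f s q N : ℕ)
    (hf : 0 < f) (hs : 0 < s) (hq : q = p ^ f) (hk : Nat.card k = q ^ s) (hN : N ∣ q - 1)
    (m r : ℕ) (hr : 1 ≤ r) (A : Curve k m r) (D j : ℕ) (hA : A.Small p q N D j)
    (G O : Type) [Group G] [Finite G] [CommRing O] [Algebra k[X] O] [MulSemiringAction G O]
    (S : Finset (MaximalSpectrum k[X])) (e : MaximalSpectrum k[X] → ℕ)
    (hO : IsPCovering p A.B S e G O) (χ : MulChar k ℂ) (hχ : orderOf χ = N)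
    (M : Multiset ℂ) (hM : ∀ ζ ∈ M, ∃ n : ℕ, 0 < n ∧ ζ ^ n = 1)
    (hL : Vanishes (Nat.card k) M (A.Lfun O χ)) :
    Multiset.card M ≤ A.geometricBound S e (Nat.card G) ∧
      ((∀ ζ ∈ M, ∃ n : ℕ, ζ ^ p ^ n = 1) →
        Multiset.card M ≤ A.arithmeticBound p N S e (Nat.card G)) := by
  have hFt : Fintype k := Fintype.ofFinite k
  have hgal := hO.galois
  have hfs : FaithfulSMul k[X] O := (faithfulSMul_iff_algebraMap_injective _ _).2 hO.injective
  have hG : IsPGroup p G := hO.pGroup
  obtain ⟨g, hg⟩ := IsPGroup.iff_card.1 hG
  obtain ⟨H, hH⟩ := hL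
  rw [Lfun_eq] at hH
  exact Pool.Agent.N876.KM.main hf hs hq (by rw [← Nat.card_eq_fintype_card]; exact hk) hN
    hA.coprime (by rw [Fintype.card_fin]; omega) A.coef A.coefExp hA.coef_exp A.root A.rootExp
    hA.root_exp hA.deg_pos hA.root_deg hA.small hA.carry G hg S e hO.index hO.unramified χ hχ M hM
    H hH

end Pool.Agent.Results.MP_60d5ce_nt.AllPExtensions
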