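import Pool.Agent.N181.P8.Main
import Pool.Agent.N181.P8.Tower

/-!
# Coverings of rational elliptic surfaces with a section of order three

`k` is a field of characteristic different from `3`, and `E₀ : y² + a x y + b y = x³` is an elliptic
curve over `k(s)` with `deg a ≤ 1`, `deg b ≤ 3`: a rational elliptic surface with a section of order
three (every such surface has an equation of this form), such that `b` and `a³ - 27 b` are not constants
times cubes (`RatBase`). `E` is the pullback of `E₀` by a map `s = q(t) / r(t)` of degree `n` prime to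
`6` with exactly one closed point above each place of bad reduction of `E₀` (`Cover`). Then the Tate
conjecture at the prime `3` holds for `E` over `L(t)`, for all finite extensions `L` of `k` of degree
prime to `n`, and the pulled back points of `E₀` over `L(s)` have an index in `E(L(t))` which is finite
and prime to three. For a finite field `k` this is the conjecture of Birch and Swinnerton-Dyer, with the
formula for the leading coefficient, for `E` over `L(t)` (Artin-Tate, Milne, Kato-Trihan). There are
infinite towers of such coverings.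
-/

set_option autoImplicit false
set_option linter.all false

open Polynomial IsDedekindDomain WeierstrassCurve WeierstrassCurve.Affine
open scoped Classical

namespace Pool.Agent.Results.MP_60d5ce_nt.OrderThreeCoverings

open Pool.Agent.N181.P8
open Pool.Agent.TH115.GD (IsTower)

/-- The conclusions: the Tate conjecture at `3` and the index of the pulled back points, over all the
finite extensions `L` of `k` of degree prime to `n`. -/
def Holds {k : Type} [Field k] (q r : k[X]) (n : ℕ) (a b : k[X]) : Prop :=
  ∀ (L L' K₀ K F : Type) [Field L] [Field L'] [Field K₀] [Field K] [Field F]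
    [Algebra k L] [FiniteDimensional k L] [Algebra L L'] [Algebra L[X] K₀] [IsFractionRing L[X] K₀]
    [Algebra L[X] K] [Algebra L'[X] F] [IsFractionRing L'[X] F] [Algebra K F],
    IsTower L L' K F → Nat.Coprime n (Module.finrank k L) →
    TateQ (F := F) 3 L' (surf K (q.map (algebraMap k L)) (r.map (algebraMap k L))
      (a.map (algebraMap k L)) (b.map (algebraMap k L))) ∧
    PointsIdx K₀ K F (q.map (algebraMap k L)) (r.map (algebraMap k L))
      (a.map (algebraMap k L)) (b.map (algebraMap k L))

theorem result :
    -- the coverings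
    (∀ (k : Type) [Field k] (a b q r : k[X]) (n : ℕ), RatBase a b → Cover q r n a b →
      Holds q r n a b) ∧
    -- the coverings `s = t ^ n + c`
    (∀ (k : Type) [Field k] (a b : k[X]), RatBase a b → (b * (a ^ 3 - 27 * b)).Splits →
      ∀ (n : ℕ) (c : k), Nat.Coprime n 6 → (n : k) ≠ 0 →
        (∀ ξ, (b * (a ^ 3 - 27 * b)).IsRoot ξ → ξ = c ∨
          ∀ ℓ : ℕ, ℓ.Prime → ℓ ∣ n → ∀ y : k, y ^ ℓ ≠ ξ - c) →
        Cover (X ^ n + C c) 1 n a b) ∧
    -- infinite towers over finite fields
    (∀ (k : Type) [Field k] [Finite k] (a b : k[X]), RatBase a b →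
      (b * (a ^ 3 - 27 * b)).Splits → ∀ ℓ : ℕ, ℓ.Prime → 7 ≤ ℓ → ℓ ∣ Nat.card k - 1 →
        36 < Nat.card k → ∃ c : k, ∀ j : ℕ, Cover (X ^ ℓ ^ j + C c) 1 (ℓ ^ j) a b) := by
  refine ⟨?_, ?_, ?_⟩
  · intro k _ a b q r n hB hC L L' K₀ K F _ _ _ _ _ _ _ _ _ _ _ _ _ _ hT hn
    exact main8 hT hB hC hn
  · intro k _ a b hB hs n c h6 hk hc
    exact cover_pow (mul_ne_zero hB.hb0 hB.hd0) hs h6 hk hc
  · intro k _ _ a b hB hs ℓ hℓ h7 hd hq
    have h0 := mul_ne_zero hB.hb0 hB.hd0
    obtain ⟨c, hc⟩ := exists_tower h0 (by
      refine natDegree_mul_le.trans ?_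
      have h1 := hB.db
      have h2 := hB.dd
      omega) h7 hd hq
    refine ⟨c, fun j => cover_pow h0 hs ?_ ?_ fun ξ hξ => Or.inr fun p hp hpd y => ?_⟩
    · apply Nat.Coprime.pow_left
      rw [Nat.Prime.coprime_iff_not_dvd hℓ]
      intro h
      have := Nat.le_of_dvd (by norm_num) h
      omega
    · rw [Nat.cast_pow]
      apply pow_ne_zero
      intro h
      have h1 : ((Nat.card k : ℕ) : k) = 0 := by
        letI := Fintype.ofFinite k
        rw [Nat.card_eq_fintype_card]
        exact FiniteField.cast_card_eq_zero k
      obtain ⟨m, hm⟩ := hd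
      have h2 : Nat.card k = ℓ * m + 1 := by omega
      rw [h2, Nat.cast_add, Nat.cast_mul, h, zero_mul, zero_add, Nat.cast_one] at h1
      exact one_ne_zero h1
    · have : p = ℓ := (Nat.prime_dvd_prime_iff_eq hp hℓ).1 (hp.dvd_of_dvd_pow hpd)
      rw [this]
      exact hc ξ hξ y

end Pool.Agent.Results.MP_60d5ce_nt.OrderThreeCoverings
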