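import Pool.Agent.N352.PJ.Final
import Pool.Agent.N352.JB.All

/-!
# A positive proportion of all hyperelliptic curves of every genus over `k(t)` satisfies the conjecture

Let `g ≥ 2`, let `k` be a finite field of characteristic larger than `2 g + 1` and `K = k(t)`. Every
curve `C` of genus `g` over `K` with a map of degree two to the projective line and a rational
Weierstrass point has an equation `y ^ 2 = f(x)`, where `f` is a monic polynomial of degree `2 g + 1`
over `k[t]` without term of degree `2 g`, such that there is no irreducible `P` with
`P ^ (2 (2 g + 1 - j)) ∣ f_j` for all `j`; the height of `C` is the least `M` with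
`deg f_j ≤ M (2 g + 1 - j)` for all `j`. Only the substitutions `f_j ↦ λ ^ (2 (2 g + 1 - j)) f_j`,
`λ` in `k`, remain.

Theorem. For a positive proportion of all these curves, ordered by the height, the group `J(K)` of
rational points of the Jacobian `J` is uniquely divisible by two and the 2-primary part of the
Tate-Shafarevich group of `J` is zero; indeed the 2-Selmer group of `J` is trivial.

As `J(K)` is finitely generated, for these curves it is a finite group of odd order, so `J` has rank
zero, and by the known theorem of Kato and Trihan the conjecture of Birch and Swinnerton-Dyer holds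
for `J`, including the formula.

`J(L)` is the Picard group of the affine coordinate ring `L[x, y] / (y ^ 2 - f)`, because the only
point at infinity of the curve is rational, and the Tate-Shafarevich group is given by continuous
cocycles of the absolute Galois group of `K` with values in `J(K^sep)`
(`Pool/Agent/Y713/SE/Stm.lean`, `Pool/Agent/N352/JB/ShaDef.lean`).

The 2-Selmer group in the explicit form of Cassels and Schaefer: `L = K[x] / (f) = K(θ)`; the first
cohomology group of `J[2]` is the kernel of the norm from `L* / L*²` to `K* / K*²`; the image of the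
rational points of `J` over the completion at `v` is generated by the classes of
`(-1) ^ deg u * u(θ)` for the divisors `u(x) = 0`, `y = b(x)` on the curve, i.e. for the `u` prime to
`f` with `u ∣ b ^ 2 - f`. We do not even use the condition at the place at infinity.

The proof is the generalisation to all genera of the method of helper874 for elliptic curves
(`Results/MP_48b749_nt/PositiveProportionOfCurves.lean`). For a finite set `S` of primes `Q` consider
the `f` with squarefree discriminant, irreducible reduction at infinity and reduction `x h_Q(x)`,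
`h_Q` irreducible, at the `Q ∈ S`. The Selmer elements which are locally trivial at all `Q ∈ S` give
self-dual lattices of rank `2 g + 1` over the projective line with a self-adjoint operator; they are
put into a normal form and counted in boxes, and the number of `f` with such a non-zero element is
small if `S` is large. For the other `f` the relaxed 2-Selmer group is isotropic for a quadratic form
in `∑_{Q ∈ S} F_2 ^ 2` (a reciprocity law, proved by comparing two Lagrangian subspaces of the residue
form), and linear algebra gives a subset `J` of `S` such that the twist by the product of the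
`Q ∈ J` has trivial 2-Selmer group. These twists are a positive proportion of all curves.

The step from the explicit group to `J(K)` and to the cocycles is project JB (`N352/JB/All.lean`); it
holds over every field of characteristic different from two, for `f` irreducible of odd degree.

Projects PJ and JB: helper352, after project PP of helper874, with parts by helpers 27, 50, 87, 106,
134, 195, 227, 232, 262, 270, 401, 402, 415, 424, 427, 434, 539, 568, 572, 588, 615, 622, 655, 697,
704, 738, 765, 769, 787, from PP also 160, 490 and 498, and the libraries on superelliptic Jacobians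
of projects SE (`Y160/SE`, `Y713/SE`, `TH115/GD`).
-/

set_option autoImplicit false
set_option linter.all false

namespace Pool.Agent.Results.MP_60d5ce_nt.PositiveProportionJacobians

open Polynomial Filter IsDedekindDomain
open scoped Classical
open Pool.Agent.Y713.Jac (J)
open Pool.Agent.N352.Sha (UniquelyDivisible ShaTrivial)

/-- The class of `h(θ)`, `f(θ) = 0`, comes from a rational point of the Jacobian of `y ^ 2 = f(x)`
over the field `F`: up to a square `s(θ) ^ 2` it is a product of elements `(-1) ^ deg u * u(θ)` with
`u` monic, prime to `f`, and a polynomial `b` such that `u ∣ b ^ 2 - f`. -/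
def PointImage (F : Type) [Field F] (f h : F[X]) : Prop :=
  ∃ (l : List (F[X] × F[X])) (s : F[X]),
    (∀ p ∈ l, p.1.Monic ∧ IsCoprime p.1 f ∧ p.1 ∣ p.2 ^ 2 - f) ∧
    f ∣ h * (l.map fun p => (-1) ^ p.1.natDegree * p.1).prod - s ^ 2

/-- The same for the field `E` and polynomials `f`, `h` over a subfield `K`. -/
def LocalImage (E : Type) {K : Type} [Field K] [Field E] [Algebra K E] (f h : K[X]) : Prop :=
  PointImage E (f.map (algebraMap K E)) (h.map (algebraMap K E))

/-- For the Jacobian `J` of `y ^ 2 = F(x)` over `K = k(t)` the group `J(K)` is uniquely divisible by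
two and the 2-primary part of the Tate-Shafarevich group is zero. -/
def NoTwoPart (k : Type) {K : Type} [Field k] [Field K] [Algebra k[X] K] [IsFractionRing k[X] K]
    (F : K[X]) : Prop :=
  UniquelyDivisible 2 (J 2 F K) ∧ ShaTrivial 2 F k[X]

section defs

variable {k : Type} [Field k] (K : Type) [Field K] [Algebra k[X] K]

/-- `y ^ 2 = f(x)` is a minimal equation of a curve of genus `g` with a rational Weierstrass point
over `K = k(t)`, of height at most `M`. -/
structure IsCurve (g M : ℕ) (f : k[X][X]) : Prop where
  monic : f.Monic
  degree : f.natDegree = 2 * g + 1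
  trace : f.coeff (2 * g) = 0
  height : ∀ j ≤ 2 * g, (f.coeff j).natDegree ≤ M * (2 * g + 1 - j)
  smooth : (f.map (algebraMap k[X] K)).Separable
  minimal : ∀ P : k[X], Irreducible P →
    ¬ ∀ j < 2 * g + 1, P ^ (2 * (2 * g + 1 - j)) ∣ f.coeff j

variable (k) in
/-- The curves of genus `g` and height at most `M`. -/
def Curves (g M : ℕ) : Set k[X][X] := {f | IsCurve K g M f}

variable {K} [IsFractionRing k[X] K]

variable (k) in
/-- The 2-Selmer group of the Jacobian of `y ^ 2 = f(x)` over `K` is trivial: every `h(θ)`, `h` prime
to `f`, whose norm is a square and which comes from a local point at every finite place, is a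
square `s(θ) ^ 2`. -/
def SelmerTrivial (f : K[X]) : Prop :=
  ∀ h : K[X], IsCoprime h f → IsSquare (Algebra.norm K (AdjoinRoot.mk f h)) →
    (∀ v : HeightOneSpectrum k[X], LocalImage (v.adicCompletion K) f h) →
    ∃ s : K[X], f ∣ h - s ^ 2

variable (k K) in
/-- The curves of genus `g` and height at most `M` for which `f` is irreducible, `J(K)` is uniquely
divisible by two, the 2-primary part of the Tate-Shafarevich group is zero and the 2-Selmer group is
trivial. -/
def GoodCurves (g M : ℕ) : Set k[X][X] :=
  {f ∈ Curves k K g M | Irreducible (f.map (algebraMap k[X] K)) ∧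
    NoTwoPart k (f.map (algebraMap k[X] K)) ∧ SelmerTrivial k (f.map (algebraMap k[X] K))}

theorem selmerTrivial_of {f : k[X][X]} (h : Pool.Agent.N352.PJ.SelZero K f) :
    SelmerTrivial k (f.map (algebraMap k[X] K)) := by
  intro a h1 h2 h3
  refine h a h1 h2 fun v => ?_
  have h4 := h3 v
  unfold LocalImage PointImage at h4
  rw [Polynomial.map_map] at h4
  exact h4

end defs

/-- For every `g ≥ 2` and every finite field `k` of characteristic larger than `2 g + 1` there is a
positive constant `c` such that for all large `M` at least `c` times the number of all the curves of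
genus `g` over `K = k(t)` of height at most `M` with a rational Weierstrass point have `f` irreducible
and a Jacobian `J` with trivial 2-Selmer group, with `J(K)` uniquely divisible by two and with trivial
2-primary part of the Tate-Shafarevich group. -/
theorem result (g : ℕ) (hg : 2 ≤ g) (k : Type) [Field k] [Finite k]
    (hp : ((2 * g + 1).factorial : k) ≠ 0) (K : Type) [Field K] [Algebra k[X] K]
    [IsFractionRing k[X] K] :
    (∀ M : ℕ, (Curves k K g M).Finite) ∧
    ∃ c : ℝ, 0 < c ∧ ∀ᶠ M : ℕ in atTop, 0 < (Curves k K g M).ncard ∧
      c * ((Curves k K g M).ncard : ℝ) ≤ ((GoodCurves k K g M).ncard : ℝ) := by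
  have hsub : ∀ M, Curves k K g M ⊆ {f : k[X][X] | Pool.Agent.N352.PJ.Ht g M f} :=
    fun M f hf => ⟨hf.monic, hf.degree, hf.trace, hf.height⟩
  have hfin : ∀ M, (Curves k K g M).Finite := fun M =>
    (Pool.Agent.N415.PJMAIN.ht_card (k := k) g M).1.subset (hsub M)
  have h2k : (2 : k) ≠ 0 := by
    intro h0
    apply hp
    obtain ⟨d, hd⟩ : 2 ∣ (2 * g + 1).factorial := Nat.dvd_factorial (by norm_num) (by omega)
    rw [hd, Nat.cast_mul, Nat.cast_ofNat, h0, zero_mul]
  have h2K : (2 : K) ≠ 0 := by
    intro h0
    apply h2k
    have h1 : Function.Injective ((algebraMap k[X] K).comp (C : k →+* k[X])) :=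
      RingHom.injective _
    apply h1
    rw [map_zero, map_ofNat, h0]
  refine ⟨hfin, ?_⟩
  obtain ⟨c, hc, M₀, hM₀⟩ := Pool.Agent.N352.PJ.main_all g k K (by omega) hp
  refine ⟨c, hc, ?_⟩
  filter_upwards [eventually_ge_atTop M₀] with M hM
  obtain ⟨hHt, hle⟩ := hM₀ M hM
  have hsub2 : {f : k[X][X] | Pool.Agent.N352.PJ.Ht g M f ∧ Pool.Agent.N352.PJ.Mini g f ∧
      (f.map (algebraMap k[X] K)).Separable ∧ Irreducible (f.map (algebraMap k[X] K)) ∧
      Pool.Agent.N352.PJ.SelZero K f} ⊆ GoodCurves k K g M := by
    intro f hf
    obtain ⟨hb, hs⟩ := Pool.Agent.N352.JB.fin h2K hf.1.mon hf.2.2.2.1 hf.2.2.1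
      (hf.1.deg ▸ ⟨g, rfl⟩) hf.2.2.2.2
    exact ⟨⟨hf.1.mon, hf.1.deg, hf.1.tr, hf.1.ht, hf.2.2.1, hf.2.1⟩, hf.2.2.2.1, ⟨hb, hs⟩,
      selmerTrivial_of hf.2.2.2.2⟩
  have hfin2 : (GoodCurves k K g M).Finite := (hfin M).subset fun f hf => hf.1
  have h1 := Set.ncard_le_ncard hsub2 hfin2
  have h2 : c * ({f : k[X][X] | Pool.Agent.N352.PJ.Ht g M f}.ncard : ℝ) ≤
      ((GoodCurves k K g M).ncard : ℝ) := hle.trans (by exact_mod_cast h1)
  have hne : 0 < {f : k[X][X] | Pool.Agent.N352.PJ.Ht g M f}.ncard := by
    rw [Set.ncard_pos hHt]
    refine ⟨X ^ (2 * g + 1), monic_X_pow _, natDegree_X_pow _, ?_, fun j hj => ?_⟩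
    · rw [coeff_X_pow, if_neg (by omega)]
    · rw [coeff_X_pow, if_neg (by omega), natDegree_zero]
      exact Nat.zero_le _
  have h3 : 0 < ((GoodCurves k K g M).ncard : ℝ) := by
    refine lt_of_lt_of_le ?_ h2
    exact mul_pos hc (by exact_mod_cast hne)
  refine ⟨?_, ?_⟩
  · have h4 := Set.ncard_le_ncard (s := GoodCurves k K g M) (t := Curves k K g M)
      (fun f hf => hf.1) (hfin M)
    have h5 : 0 < (GoodCurves k K g M).ncard := by exact_mod_cast h3
    omega
  · refine le_trans ?_ h2
    have h4 := Set.ncard_le_ncard (hsub M) hHt
    exact mul_le_mul_of_nonneg_left (by exact_mod_cast h4) hc.le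

end Pool.Agent.Results.MP_60d5ce_nt.PositiveProportionJacobians
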